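import Mathlib

set_option autoImplicit false

namespace Pool.Agent.Lib.MP_12eaff_co.Frz.BK

open Finset
open scoped Classical

variable {V : Type} [Fintype V]

/-- Neighbourhood as a finset. -/
noncomputable def nb (G : SimpleGraph V) (v : V) : Finset V := univ.filter (G.Adj v)

@[simp] theorem mem_nb {G : SimpleGraph V} {v x : V} : x ∈ nb G v ↔ G.Adj v x := by
  simp [nb]

/-- `Q` is a clique. -/
def IsClq (G : SimpleGraph V) (Q : Finset V) : Prop := ∀ a ∈ Q, ∀ b ∈ Q, a ≠ b → G.Adj a b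

/-- `G` has a proper colouring with the colours below `D`. -/
def Colr (G : SimpleGraph V) (D : ℕ) : Prop :=
  ∃ c : V → ℕ, (∀ v, c v < D) ∧ ∀ u v, G.Adj u v → c u ≠ c v

/-- Proper colouring of the vertices whose value is below `D`; the others are uncoloured. -/
def PCol (G : SimpleGraph V) (D : ℕ) (c : V → ℕ) : Prop :=
  ∀ u v, G.Adj u v → c u < D → c u ≠ c v

/-- Minimal counterexample: degrees at most `D+1`, cliques at most `D`, not `D`-colourable. -/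
structure MC (G : SimpleGraph V) (D : ℕ) : Prop where
  deg : ∀ v, (nb G v).card ≤ D + 1
  cf : ∀ Q, IsClq G Q → Q.card ≤ D
  ncol : ¬ Colr G D
  ih : ∀ G' : SimpleGraph V, G'.support ⊂ G.support → (∀ v, (nb G' v).card ≤ D + 1) →
    (∀ Q, IsClq G' Q → Q.card ≤ D) → Colr G' D

/-- Number of neighbours of `v` in the intersection of the closed neighbourhoods of `x1`, `x2`. -/
noncomputable def dX (G : SimpleGraph V) (x1 x2 v : V) : ℕ :=
  ((nb G v).filter (fun y => (y = x1 ∨ G.Adj x1 y) ∧ (y = x2 ∨ G.Adj x2 y))).card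

/-- Neighbours of `z` that share with `z` a common clique of size at least `m`. -/
noncomputable def Jset (G : SimpleGraph V) (m : ℕ) (z : V) : Finset V :=
  (nb G z).filter (fun e => ∃ Q, IsClq G Q ∧ m ≤ Q.card ∧ ∀ a ∈ Q, G.Adj e a ∧ G.Adj z a)

/-- Members of `K` joined to all other members. -/
noncomputable def Uni (G : SimpleGraph V) (K : Finset V) : Finset V :=
  K.filter (fun x => ∀ y ∈ K, y ≠ x → G.Adj x y)

/-- `K` has `D` members, at least `τ` of them universal. -/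
def Tight (G : SimpleGraph V) (D τ : ℕ) (K : Finset V) : Prop := K.card = D ∧ τ ≤ (Uni G K).card

/-- Data of the recolouring argument: invisible vertices `P`, their groups and their ends. -/
structure Sys (V : Type) where
  G : SimpleGraph V
  D : ℕ
  κ : ℕ
  p : ℕ
  L : ℕ
  P : Finset V
  gr : V → Finset V
  E : V → Finset V

namespace Sys

variable (S : Sys V)

/-- Some end of `w` has colour `γ`. -/
def sees (c : V → ℕ) (w : V) (γ : ℕ) : Prop := ∃ x ∈ S.E w, c x = γ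

/-- The two ends of `w` have colours `γ` and `ζ`. -/
def cls (c : V → ℕ) (w : V) (γ ζ : ℕ) : Prop :=
  ∃ x ∈ S.E w, ∃ y ∈ S.E w, x ≠ y ∧ c x = γ ∧ c y = ζ

noncomputable def sC (c : V → ℕ) (g : Finset V) (γ : ℕ) : ℕ :=
  (g.filter (fun w => S.sees c w γ)).card

noncomputable def cC (c : V → ℕ) (g : Finset V) (γ ζ : ℕ) : ℕ :=
  (g.filter (fun w => S.cls c w γ ζ)).card

/-- Admissible colourings. -/
structure Valid (c : V → ℕ) : Prop where
  unc : ∀ w ∈ S.P, ¬ c w < S.D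
  prop : PCol S.G S.D c
  star : ∀ w ∈ S.P, ∀ γ < S.D, S.sC c (S.gr w) γ + 1 ≤ S.p
  cl : ∀ w ∈ S.P, ∀ γ < S.D, ∀ ζ < S.D, S.cC c (S.gr w) γ ζ ≤ S.L

/-- What the static part of the proof provides. -/
structure OK : Prop where
  deg : ∀ v, (nb S.G v).card ≤ S.D + 1
  mem : ∀ w ∈ S.P, w ∈ S.gr w
  sub : ∀ w ∈ S.P, S.gr w ⊆ S.P
  eqv : ∀ w ∈ S.P, ∀ w' ∈ S.gr w, S.gr w' = S.gr w
  card : ∀ w ∈ S.P, (S.gr w).card = S.p
  Eadj : ∀ w ∈ S.P, ∀ x ∈ S.E w, S.G.Adj w x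
  Ecard : ∀ w ∈ S.P, (S.E w).card ≤ 2
  EP : ∀ w ∈ S.P, ∀ x ∈ S.E w, x ∉ S.P
  Edisj : ∀ w ∈ S.P, ∀ w' ∈ S.gr w, w' ≠ w → ∀ x ∈ S.E w, x ∉ S.E w'
  p4 : ∀ z, z ∉ S.P → (∃ T : Finset V, T ⊆ S.P ∧ 3 ≤ T.card ∧ ∀ w ∈ T, S.G.Adj z w ∧ z ∉ S.E w) ∨
    (∀ Q, IsClq S.G Q → S.κ ≤ Q.card → (∀ a ∈ Q, S.G.Adj z a) →
      (Jset S.G (S.κ - 4) z).card + 2 ≤ S.D)
  hole : ∀ c, S.Valid c → ∃ v, v ∉ S.P ∧ ¬ c v < S.D

end Sys

/-! Statements of the static lemmas. -/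

/-- Two disjoint non-edges in the common neighbourhood of an edge. -/
def TSst (G : SimpleGraph V) (D : ℕ) : Prop :=
  ∀ x1 x2 a b c d : V, G.Adj x1 x2 → G.Adj x1 a → G.Adj x1 b → G.Adj x1 c → G.Adj x1 d →
    G.Adj x2 a → G.Adj x2 b → G.Adj x2 c → G.Adj x2 d → a ≠ b → c ≠ d → a ≠ c → a ≠ d → b ≠ c →
    b ≠ d → ¬ G.Adj a b → ¬ G.Adj c d → D + 4 ≤ dX G x1 x2 a + dX G x1 x2 b →
    D + 4 ≤ dX G x1 x2 c + dX G x1 x2 d → False

/-- Three independent vertices in the common neighbourhood of an edge. -/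
def E3st (G : SimpleGraph V) (D : ℕ) : Prop :=
  ∀ x1 x2 a b c : V, G.Adj x1 x2 → G.Adj x1 a → G.Adj x1 b → G.Adj x1 c →
    G.Adj x2 a → G.Adj x2 b → G.Adj x2 c → a ≠ b → a ≠ c → b ≠ c →
    ¬ G.Adj a b → ¬ G.Adj a c → ¬ G.Adj b c →
    2 * D + 4 ≤ dX G x1 x2 a + dX G x1 x2 b + dX G x1 x2 c → False

/-- A vertex outside a clique of size `D` has at most four neighbours in it. -/
def RAst (G : SimpleGraph V) (D : ℕ) : Prop :=
  ∀ (Q : Finset V) (z : V), IsClq G Q → Q.card = D → z ∉ Q → (Q.filter (G.Adj z)).card ≤ 4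

/-- A vertex outside a tight set has at most four neighbours among its universal members. -/
def RGst (G : SimpleGraph V) (D τ : ℕ) : Prop :=
  ∀ (K : Finset V) (z : V), Tight G D τ K → z ∉ K → ((Uni G K).filter (G.Adj z)).card ≤ 4

/-- Tight sets that meet are equal. -/
def DJst (G : SimpleGraph V) (D τ : ℕ) : Prop :=
  ∀ (K K' : Finset V) (v : V), Tight G D τ K → Tight G D τ K' → v ∈ K → v ∈ K' → K = K'

/-- A vertex with a large clique and many attached neighbours lies in a tight set. -/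
def P4st (G : SimpleGraph V) (D κ : ℕ) : Prop :=
  ∀ (z : V) (Q : Finset V), IsClq G Q → κ ≤ Q.card → (∀ a ∈ Q, G.Adj z a) →
    D ≤ (Jset G (κ - 4) z).card + 1 → ∃ K, Tight G D (κ - 5) K ∧ z ∈ K

/-- Haxell's theorem on independent transversals. -/
def HaxSt : Prop :=
  ∀ (ι W : Type) (I : Finset ι) (Pt : ι → Finset W) (H : W → W → Prop) (d : ℕ),
    (∀ u v, H u v → H v u) → (∀ v, ∃ N : Finset W, N.card ≤ d ∧ ∀ u, H v u → u ∈ N) →
    (∀ i ∈ I, ∀ j ∈ I, i ≠ j → Disjoint (Pt i) (Pt j)) → 1 ≤ d →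
    (∀ i ∈ I, 2 * d ≤ (Pt i).card) →
    ∃ g : ι → W, (∀ i ∈ I, g i ∈ Pt i) ∧ ∀ i ∈ I, ∀ j ∈ I, i ≠ j → ¬ H (g i) (g j)

/-- Extension of a total admissible colouring to the invisible vertices. -/
def ExtSt (S : Sys V) : Prop :=
  ∀ Kf : V → Finset V, S.L + 2 ≤ S.p → (∀ w ∈ S.P, w ∈ S.gr w) → (∀ w ∈ S.P, S.gr w ⊆ S.P) →
    (∀ w ∈ S.P, ∀ w' ∈ S.gr w, S.gr w' = S.gr w) → (∀ w ∈ S.P, (S.gr w).card = S.p) →
    (∀ w ∈ S.P, (S.E w).card ≤ 2) → (∀ w ∈ S.P, ∀ x ∈ S.E w, x ∉ S.P) →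
    (∀ w ∈ S.P, (Kf w).card = S.D) → (∀ w ∈ S.P, S.gr w ⊆ Kf w) →
    (∀ w ∈ S.P, ∀ w' ∈ S.gr w, Kf w' = Kf w) →
    (∀ w ∈ S.P, ∀ x, S.G.Adj w x → x ∈ Kf w ∨ x ∈ S.E w) →
    (∀ w ∈ S.P, ∀ x ∈ Kf w, x ∈ S.P → x ∈ S.gr w) →
    ∀ c, S.Valid c → (∀ v, v ∉ S.P → c v < S.D) → Colr S.G S.D

/-- Selection of the invisible vertices. -/
def SelSt (G : SimpleGraph V) (D κ p L : ℕ) : Prop :=
  ∃ S : Sys V, S.G = G ∧ S.D = D ∧ S.κ = κ ∧ S.p = p ∧ S.L = L ∧ S.OK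

end Pool.Agent.Lib.MP_12eaff_co.Frz.BK
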