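import Mathlib
import Pool.Agent.Lib.MP_12eaff_co.Frz.BK.Defs

set_option autoImplicit false

namespace Pool.Agent.Lib.MP_12eaff_co.Frz.BK

open Finset
open scoped Classical

variable {V : Type} [Fintype V] {G : SimpleGraph V} {D : ℕ}

omit [Fintype V] in
/-- A colour below `D` outside a set of fewer than `D` colours. -/
theorem exists_col_notMem (C : Finset ℕ) (h : C.card < D) : ∃ γ < D, γ ∉ C := by
  by_contra hc
  push Not at hc
  have : range D ⊆ C := fun γ hγ => hc γ (mem_range.mp hγ)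
  have := card_le_card this
  simp at this
  omega

omit [Fintype V] in
theorem free_col {c : V → ℕ} {v : V} (F : Finset V) (hF : F.card < D)
    (h : ∀ e, G.Adj v e → c e < D → ∃ f ∈ F, c f = c e) :
    ∃ γ < D, ∀ e, G.Adj v e → c e ≠ γ := by
  obtain ⟨γ, h1, h2⟩ := exists_col_notMem (F.image c) (lt_of_le_of_lt card_image_le hF)
  refine ⟨γ, h1, fun e he hc => h2 ?_⟩
  obtain ⟨f, hf, hf'⟩ := h e he (hc ▸ h1)
  exact mem_image.mpr ⟨f, hf, hf'.trans hc⟩

omit [Fintype V] in
theorem PCol.put {c : V → ℕ} (hc : PCol G D c) {v : V} {γ : ℕ}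
    (h : ∀ e, G.Adj v e → c e ≠ γ) : PCol G D (Function.update c v γ) := by
  intro a b hab ha
  by_cases h1 : a = v
  · subst h1
    rw [Function.update_self, Function.update_of_ne hab.ne']
    exact (h b hab).symm
  · rw [Function.update_of_ne h1] at ha ⊢
    by_cases h2 : b = v
    · subst h2
      rw [Function.update_self]
      exact h a hab.symm
    · rw [Function.update_of_ne h2]
      exact hc a b hab ha

omit [Fintype V] in
theorem PCol.unc {c : V → ℕ} (hc : PCol G D c) (v : V) : PCol G D (Function.update c v D) := by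
  intro a b hab ha
  by_cases h1 : a = v
  · subst h1
    simp at ha
  · rw [Function.update_of_ne h1] at ha ⊢
    by_cases h2 : b = v
    · subst h2
      rw [Function.update_self]
      omega
    · rw [Function.update_of_ne h2]
      exact hc a b hab ha

/-- Greedy colouring of vertices that have two neighbours which stay uncoloured. -/
theorem ext_set (hdeg : ∀ v, (nb G v).card ≤ D + 1) {t1 t2 : V} (ht : t1 ≠ t2) (W : Finset V) :
    ∀ c : V → ℕ, PCol G D c → ¬ c t1 < D → ¬ c t2 < D → t1 ∉ W → t2 ∉ W →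
      (∀ w ∈ W, G.Adj w t1 ∧ G.Adj w t2) →
      ∃ c', PCol G D c' ∧ (∀ v, v ∉ W → c' v = c v) ∧ (∀ v, c v < D → c' v = c v) ∧
        ∀ w ∈ W, c' w < D := by
  induction W using Finset.induction_on with
  | empty => intro c hc _ _ _ _ _; exact ⟨c, hc, fun _ _ => rfl, fun _ _ => rfl, by simp⟩
  | insert w W hw ih =>
    intro c hc h1 h2 h3 h4 h5
    obtain ⟨c', a1, a2, a3, a4⟩ := ih c hc h1 h2 (fun h => h3 (mem_insert_of_mem h))
      (fun h => h4 (mem_insert_of_mem h)) (fun x hx => h5 x (mem_insert_of_mem hx))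
    by_cases hcw : c w < D
    · refine ⟨c', a1, fun v hv => a2 v (fun h => hv (mem_insert_of_mem h)), a3, ?_⟩
      intro x hx
      rcases mem_insert.mp hx with rfl | hx
      · rw [a3 _ hcw]; exact hcw
      · exact a4 x hx
    · have hw5 := h5 w (mem_insert_self _ _)
      have e1 : c' t1 = c t1 := a2 _ (fun h => h3 (mem_insert_of_mem h))
      have e2 : c' t2 = c t2 := a2 _ (fun h => h4 (mem_insert_of_mem h))
      have hcard : (((nb G w).erase t1).erase t2).card < D := by
        have k1 : t1 ∈ nb G w := mem_nb.mpr hw5.1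
        have k2 : t2 ∈ (nb G w).erase t1 := mem_erase.mpr ⟨ht.symm, mem_nb.mpr hw5.2⟩
        have := card_erase_of_mem k1
        have := card_erase_of_mem k2
        have := card_pos.mpr ⟨_, k2⟩
        have := hdeg w
        omega
      obtain ⟨γ, g1, g2⟩ := free_col (G := G) (c := c') (v := w) _ hcard (fun e he hce =>
        ⟨e, mem_erase.mpr ⟨fun h => h2 (by rw [← e2, ← h]; exact hce),
          mem_erase.mpr ⟨fun h => h1 (by rw [← e1, ← h]; exact hce), mem_nb.mpr he⟩⟩, rfl⟩)
      refine ⟨Function.update c' w γ, a1.put g2, ?_, ?_, ?_⟩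
      · intro v hv
        rw [Function.update_of_ne (fun h => hv (by rw [h]; exact mem_insert_self _ _))]
        exact a2 v (fun h => hv (mem_insert_of_mem h))
      · intro v hv
        rw [Function.update_of_ne (fun h => hcw (by rw [← h]; exact hv))]
        exact a3 v hv
      · intro x hx
        by_cases hxw : x = w
        · subst hxw; simpa using g1
        · rw [Function.update_of_ne hxw]
          exact a4 x ((mem_insert.mp hx).resolve_left hxw)

/-- `B` is a set of coloured vertices whose colours also occur on neighbours of `t` outside `B`. -/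
def Red (G : SimpleGraph V) (D : ℕ) (c : V → ℕ) (t : V) (B : Finset V) : Prop :=
  ∀ b ∈ B, c b < D ∧ ∃ b', G.Adj t b' ∧ b' ∉ B ∧ c b' = c b

/-- Finishing lemma: all uncoloured vertices are joined to `t1` and `t2`, `t1` saves one colour
and `t2` saves two. -/
theorem finish (hdeg : ∀ v, (nb G v).card ≤ D + 1) {c : V → ℕ} (hc : PCol G D c) {t1 t2 : V}
    (ht : G.Adj t1 t2) (h1 : ¬ c t1 < D) (h2 : ¬ c t2 < D)
    (hu : ∀ v, ¬ c v < D → v = t1 ∨ v = t2 ∨ (G.Adj v t1 ∧ G.Adj v t2))
    (B1 B2 : Finset V) (r1 : Red G D c t1 B1) (r2 : Red G D c t2 B2)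
    (k1 : (nb G t1 \ B1).card ≤ D) (k2 : (nb G t2 \ B2).card + 1 ≤ D) : Colr G D := by
  obtain ⟨c', a1, a2, a3, a4⟩ := ext_set hdeg ht.ne
    (univ.filter (fun v => ¬ c v < D ∧ v ≠ t1 ∧ v ≠ t2)) c hc h1 h2 (by simp) (by simp)
    (fun w hw => by
      have := (mem_filter.mp hw).2
      rcases hu w this.1 with h | h | h
      · exact absurd h this.2.1
      · exact absurd h this.2.2
      · exact h)
  have e2 : c' t2 = c t2 := a2 _ (by simp)
  have t2B : t2 ∉ B1 := fun h => h2 (r1 _ h).1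
  have hcard : ((nb G t1 \ B1).erase t2).card < D := by
    have k : t2 ∈ nb G t1 \ B1 := mem_sdiff.mpr ⟨mem_nb.mpr ht, t2B⟩
    have := card_erase_of_mem k
    have := card_pos.mpr ⟨_, k⟩
    omega
  obtain ⟨γ, g1, g2⟩ := free_col (G := G) (c := c') (v := t1) _ hcard (fun e he hce => by
    by_cases hb : e ∈ B1
    · obtain ⟨q1, b', q2, q3, q4⟩ := r1 e hb
      refine ⟨b', mem_erase.mpr ⟨fun h => h2 (by rw [← h, q4]; exact q1),
        mem_sdiff.mpr ⟨mem_nb.mpr q2, q3⟩⟩, ?_⟩
      rw [a3 _ (by rw [q4]; exact q1), a3 _ q1, q4]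
    · exact ⟨e, mem_erase.mpr ⟨fun h => h2 (by rw [← e2, ← h]; exact hce),
        mem_sdiff.mpr ⟨mem_nb.mpr he, hb⟩⟩, rfl⟩)
  have p1 := a1.put g2
  obtain ⟨δ, d1, d2⟩ := free_col (G := G) (D := D) (c := Function.update c' t1 γ) (v := t2)
    (nb G t2 \ B2) (by omega) (fun e he _ => by
    by_cases hb : e ∈ B2
    · obtain ⟨q1, b', q2, q3, q4⟩ := r2 e hb
      refine ⟨b', mem_sdiff.mpr ⟨mem_nb.mpr q2, q3⟩, ?_⟩
      rw [Function.update_of_ne (fun h => h1 (by rw [← h, q4]; exact q1)),
        Function.update_of_ne (fun h => h1 (by rw [← h]; exact q1)),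
        a3 _ (by rw [q4]; exact q1), a3 _ q1, q4]
    · exact ⟨e, mem_sdiff.mpr ⟨mem_nb.mpr he, hb⟩, rfl⟩)
  have p2 := p1.put d2
  have all : ∀ v, Function.update (Function.update c' t1 γ) t2 δ v < D := by
    intro v
    by_cases q2 : v = t2
    · subst q2; simpa using d1
    · rw [Function.update_of_ne q2]
      by_cases q1 : v = t1
      · subst q1; simpa using g1
      · rw [Function.update_of_ne q1]
        by_cases q : c v < D
        · rw [a3 _ q]; exact q
        · exact a4 v (mem_filter.mpr ⟨mem_univ _, q, q1, q2⟩)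
  exact ⟨_, all, fun u v h => p2 u v h (all u)⟩

/-- Delete `X` and join `y1` to `y2`. -/
def delAdd (G : SimpleGraph V) (X : Finset V) (y1 y2 : V) : SimpleGraph V where
  Adj u v := u ≠ v ∧ u ∉ X ∧ v ∉ X ∧ (G.Adj u v ∨ (u = y1 ∧ v = y2) ∨ (u = y2 ∧ v = y1))
  symm := ⟨fun u v h => ⟨h.1.symm, h.2.2.1, h.2.1, by
    rcases h.2.2.2 with h | h | h
    · exact Or.inl h.symm
    · exact Or.inr (Or.inr ⟨h.2, h.1⟩)
    · exact Or.inr (Or.inl ⟨h.2, h.1⟩)⟩⟩
  loopless := ⟨fun _ h => h.1 rfl⟩

theorem col_delAdd (h : MC G D) (X : Finset V) {y1 y2 x1 x2 : V} (hx1 : x1 ∈ X) (hx2 : x2 ∈ X)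
    (a1 : G.Adj y1 x1) (a2 : G.Adj y2 x2)
    (nobad : y1 ≠ y2 → y1 ∉ X → y2 ∉ X → ∀ W, IsClq G W →
      (∀ a ∈ W, G.Adj y1 a ∧ G.Adj y2 a ∧ a ∉ X) → W.card + 2 ≤ D) :
    ∃ c, PCol G D c ∧ (∀ v, c v < D ↔ v ∉ X) ∧ (y1 ≠ y2 → y1 ∉ X → y2 ∉ X → c y1 ≠ c y2) := by
  have hsup : (delAdd G X y1 y2).support ⊂ G.support := by
    refine ⟨?_, fun hh => ?_⟩
    · rintro u ⟨v, q1, q2, q3, q4⟩
      rcases q4 with q | q | q
      · exact ⟨v, q⟩
      · exact ⟨x1, q.1 ▸ a1⟩
      · exact ⟨x2, q.1 ▸ a2⟩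
    · obtain ⟨v, hv⟩ := hh (show x1 ∈ G.support from ⟨y1, a1.symm⟩)
      exact hv.2.1 hx1
  have hdeg : ∀ v, (nb (delAdd G X y1 y2) v).card ≤ D + 1 := by
    intro v
    by_cases q1 : v = y1
    · have : nb (delAdd G X y1 y2) v ⊆ insert y2 ((nb G v).erase x1) := by
        intro u hu
        obtain ⟨q, q2, q3, q4⟩ := mem_nb.mp hu
        rcases q4 with q4 | q4 | q4
        · exact mem_insert_of_mem (mem_erase.mpr ⟨fun e => q3 (e ▸ hx1), mem_nb.mpr q4⟩)
        · rw [q4.2]; exact mem_insert_self _ _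
        · exact absurd (q1.trans q4.2.symm) q
      have k : x1 ∈ nb G v := mem_nb.mpr (q1 ▸ a1)
      have := card_le_card this
      have := card_insert_le y2 ((nb G v).erase x1)
      have := card_erase_of_mem k
      have := card_pos.mpr ⟨_, k⟩
      have := h.deg v
      omega
    · by_cases q2 : v = y2
      · have : nb (delAdd G X y1 y2) v ⊆ insert y1 ((nb G v).erase x2) := by
          intro u hu
          obtain ⟨q, _, q3, q4⟩ := mem_nb.mp hu
          rcases q4 with q4 | q4 | q4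
          · exact mem_insert_of_mem (mem_erase.mpr ⟨fun e => q3 (e ▸ hx2), mem_nb.mpr q4⟩)
          · exact absurd q4.1 q1
          · rw [q4.2]; exact mem_insert_self _ _
        have k : x2 ∈ nb G v := mem_nb.mpr (q2 ▸ a2)
        have := card_le_card this
        have := card_insert_le y1 ((nb G v).erase x2)
        have := card_erase_of_mem k
        have := card_pos.mpr ⟨_, k⟩
        have := h.deg v
        omega
      · refine le_trans (card_le_card ?_) (h.deg v)
        intro u hu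
        obtain ⟨_, _, _, q4⟩ := mem_nb.mp hu
        rcases q4 with q4 | q4 | q4
        · exact mem_nb.mpr q4
        · exact absurd q4.1 q1
        · exact absurd q4.1 q2
  have hcf : ∀ Q, IsClq (delAdd G X y1 y2) Q → Q.card ≤ D := by
    intro Q hQ
    by_cases hb : y1 ∈ Q ∧ y2 ∈ Q ∧ y1 ≠ y2
    · obtain ⟨b1, b2, b3⟩ := hb
      have e := hQ _ b1 _ b2 b3
      have := nobad b3 e.2.1 e.2.2.1 ((Q.erase y1).erase y2) (by
        intro a ha b hb hab
        have ha' := mem_erase.mp ha
        have ha'' := mem_erase.mp ha'.2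
        have hb' := mem_erase.mp hb
        have hb'' := mem_erase.mp hb'.2
        rcases (hQ a ha''.2 b hb''.2 hab).2.2.2 with q | q | q
        · exact q
        · exact absurd q.1 ha''.1
        · exact absurd q.1 ha'.1) (by
        intro a ha
        have ha' := mem_erase.mp ha
        have ha'' := mem_erase.mp ha'.2
        have u1 := hQ _ b1 a ha''.2 ha''.1.symm
        have u2 := hQ _ b2 a ha''.2 ha'.1.symm
        refine ⟨?_, ?_, u1.2.2.1⟩
        · rcases u1.2.2.2 with q | q | q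
          · exact q
          · exact absurd q.2 ha'.1
          · exact absurd q.2 ha''.1
        · rcases u2.2.2.2 with q | q | q
          · exact q
          · exact absurd q.2 ha'.1
          · exact absurd q.2 ha''.1)
      have k : y2 ∈ Q.erase y1 := mem_erase.mpr ⟨b3.symm, b2⟩
      have := card_erase_of_mem b1
      have := card_erase_of_mem k
      have := card_pos.mpr ⟨_, k⟩
      omega
    · refine h.cf Q (fun a ha b hb' hab => ?_)
      rcases (hQ a ha b hb' hab).2.2.2 with q | q | q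
      · exact q
      · exact absurd ⟨q.1 ▸ ha, q.2 ▸ hb', q.1 ▸ q.2 ▸ hab⟩ hb
      · exact absurd ⟨q.2 ▸ hb', q.1 ▸ ha, q.1 ▸ q.2 ▸ hab.symm⟩ hb
  obtain ⟨c, c1, c2⟩ := h.ih _ hsup hdeg hcf
  refine ⟨fun v => if v ∈ X then D else c v, ?_, ?_, ?_⟩
  · intro u v huv hu
    by_cases q1 : u ∈ X
    · simp [q1] at hu
    · by_cases q2 : v ∈ X
      · simp only [q1, q2, if_true, if_false]
        exact (c1 u).ne
      · simp only [q1, q2, if_false]
        exact c2 u v ⟨huv.ne, q1, q2, Or.inl huv⟩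
  · intro v
    by_cases q : v ∈ X
    · simp [q]
    · simp [q, c1 v]
  · intro q q1 q2
    simp only [q1, q2, if_false]
    exact c2 _ _ ⟨q, q1, q2, Or.inr (Or.inl ⟨rfl, rfl⟩)⟩

/-- Colouring of the graph without `X`. -/
theorem col_del (h : MC G D) (X : Finset V) {x y : V} (hx : x ∈ X) (a : G.Adj y x) :
    ∃ c, PCol G D c ∧ ∀ v, c v < D ↔ v ∉ X := by
  obtain ⟨c, c1, c2, _⟩ := col_delAdd h X hx hx a a (fun q => absurd rfl q)
  exact ⟨c, c1, c2⟩

end Pool.Agent.Lib.MP_12eaff_co.Frz.BK
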