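import Mathlib
import Pool.Agent.Lib.MP_12eaff_co.Frz.BK.Greedy

set_option autoImplicit false

namespace Pool.Agent.Lib.MP_12eaff_co.Frz.BK

open Finset
open scoped Classical

variable {V : Type} [Fintype V]

/-- Three independent vertices joined to a clique with more than half of `D` members. -/
def E3bst (G : SimpleGraph V) (D : ℕ) : Prop :=
  ∀ (W : Finset V) (a b c : V), IsClq G W → D + 3 ≤ 2 * W.card → 6 ≤ W.card → a ≠ b → a ≠ c →
    b ≠ c → ¬ G.Adj a b → ¬ G.Adj a c → ¬ G.Adj b c →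
    (∀ x ∈ W, G.Adj x a ∧ G.Adj x b ∧ G.Adj x c) → False

/-- A vertex outside a tight set has at most one neighbour among its universal members. -/
def RSst (G : SimpleGraph V) (D τ : ℕ) : Prop :=
  ∀ (K : Finset V) (z : V), Tight G D τ K → z ∉ K → ((Uni G K).filter (G.Adj z)).card ≤ 1

/-- A vertex with a large clique and many attached neighbours lies in a tight set. -/
def P4st2 (G : SimpleGraph V) (D k : ℕ) : Prop :=
  ∀ (z : V) (Q : Finset V), IsClq G Q → k ≤ Q.card → (∀ a ∈ Q, G.Adj z a) →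
    D ≤ (Jset G (k - 3) z).card + 1 → ∃ K, Tight G D (k - 3) K ∧ z ∈ K

/-- The form in which the recolouring argument uses `P4st2`. -/
def Sys.P4n (S : Sys V) (k : ℕ) : Prop :=
  ∀ z, z ∉ S.P → (∃ T : Finset V, T ⊆ S.P ∧ 3 ≤ T.card ∧ ∀ w ∈ T, S.G.Adj z w ∧ z ∉ S.E w) ∨
    (∀ Q, IsClq S.G Q → k ≤ Q.card → (∀ a ∈ Q, S.G.Adj z a) →
      (Jset S.G (k - 3) z).card + 2 ≤ S.D)

/-- Selection of the invisible vertices, second form. -/
def SelSt2 (G : SimpleGraph V) (D k p L : ℕ) : Prop :=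
  ∃ S : Sys V, S.G = G ∧ S.D = D ∧ S.p = p ∧ S.L = L ∧ S.OK ∧ S.P4n k

end Pool.Agent.Lib.MP_12eaff_co.Frz.BK
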