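import Mathlib
import Pool.Agent.Lib.MP_12eaff_co.Frz.BK.Defs
import Pool.Agent.Lib.MP_12eaff_co.Frz.BK.Greedy

set_option autoImplicit false

namespace Pool.Agent.Lib.MP_12eaff_co.Frz.BK

open Finset
open scoped Classical

variable {V : Type} [Fintype V] {G : SimpleGraph V} {D : ℕ}

namespace TSE

/-- The intersection of two closed neighbourhoods. -/
noncomputable def XX (G : SimpleGraph V) (x1 x2 : V) : Finset V :=
  univ.filter (fun y => (y = x1 ∨ G.Adj x1 y) ∧ (y = x2 ∨ G.Adj x2 y))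

theorem mem_XX {x1 x2 y : V} :
    y ∈ XX G x1 x2 ↔ (y = x1 ∨ G.Adj x1 y) ∧ (y = x2 ∨ G.Adj x2 y) := by simp [XX]

/-- The colours on the neighbours of `v` outside `X`. -/
noncomputable def seen (G : SimpleGraph V) (X : Finset V) (c : V → ℕ) (v : V) : Finset ℕ :=
  (nb G v \ X).image c

theorem card_seen (h : MC G D) (x1 x2 : V) (c : V → ℕ) (v : V) :
    (seen G (XX G x1 x2) c v).card + dX G x1 x2 v ≤ D + 1 := by
  have h1 : (seen G (XX G x1 x2) c v).card ≤ (nb G v \ XX G x1 x2).card := card_image_le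
  have h2 : dX G x1 x2 v = (nb G v ∩ XX G x1 x2).card := by
    unfold dX
    congr 1
    ext y
    rw [mem_filter, mem_inter, mem_XX]
  have h3 := card_sdiff_add_card_inter (nb G v) (XX G x1 x2)
  have h4 := h.deg v
  omega

theorem ne_of_notMem {X : Finset V} {c : V → ℕ} (hc : ∀ v, c v < D ↔ v ∉ X) {v e : V} {γ : ℕ}
    (hγ : γ < D) (hs : γ ∉ seen G X c v) (he : G.Adj v e) : c e ≠ γ := fun q =>
  hs (mem_image.2 ⟨e, mem_sdiff.2 ⟨mem_nb.2 he, (hc e).1 (q ▸ hγ)⟩, q⟩)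

omit [Fintype V] in
theorem putSet {c : V → ℕ} (hc : PCol G D c) (A : Finset V) (γ : ℕ)
    (hA : ∀ u ∈ A, ∀ e, G.Adj u e → e ∉ A ∧ c e ≠ γ) :
    PCol G D fun v => if v ∈ A then γ else c v := by
  intro u v huv hu
  by_cases h1 : u ∈ A
  · simp only [h1, (hA u h1 v huv).1, if_true, if_false]
    exact (hA u h1 v huv).2.symm
  · simp only [h1, if_false] at hu ⊢
    split_ifs with h2
    · exact (hA v h2 u huv.symm).2
    · exact hc u v huv hu

theorem core (h : MC G D) {x1 x2 p q : V} (hx : G.Adj x1 x2) {c : V → ℕ} (hc : PCol G D c)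
    (hu : ∀ v, ¬ c v < D → v ∈ XX G x1 x2) (h1 : ¬ c x1 < D) (h2 : ¬ c x2 < D) (hpq : p ≠ q)
    (a1 : G.Adj x1 p) (a2 : G.Adj x1 q) (b1 : G.Adj x2 p) (b2 : G.Adj x2 q)
    (r1 : Red G D c x1 {p, q}) (r2 : Red G D c x2 {p, q}) : False := by
  have k : ∀ t, G.Adj t p → G.Adj t q → (nb G t \ {p, q}).card + 1 ≤ D := fun t e1 e2 => by
    have s : ({p, q} : Finset V) ⊆ nb G t := by
      intro y hy
      rcases mem_insert.1 hy with rfl | hy
      · exact mem_nb.2 e1
      · rw [mem_singleton.1 hy]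
        exact mem_nb.2 e2
    have := card_sdiff_add_card_eq_card s
    have := card_pair hpq
    have := h.deg t
    omega
  refine h.ncol (finish h.deg hc hx h1 h2 (fun v hv => ?_) _ _ r1 r2
    (Nat.le_of_succ_le (k x1 a1 a2)) (k x2 b1 b2))
  obtain ⟨e1 | e1, e2 | e2⟩ := mem_XX.1 (hu v hv)
  · exact Or.inl e1
  · exact Or.inl e1
  · exact Or.inr (Or.inl e2)
  · exact Or.inr (Or.inr ⟨e1.symm, e2.symm⟩)

end TSE

open TSE

theorem ts (h : MC G D) : TSst G D := by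
  intro x1 x2 a b c d hx a1 b1 c1 d1 a2 b2 c2 d2 ab cd ac ad bc bd nab ncd sab scd
  have m1 : x1 ∈ XX G x1 x2 := mem_XX.2 ⟨Or.inl rfl, Or.inr hx.symm⟩
  have m2 : x2 ∈ XX G x1 x2 := mem_XX.2 ⟨Or.inr hx, Or.inl rfl⟩
  obtain ⟨c0, p0, h0⟩ := col_del h (XX G x1 x2) m1 hx.symm
  have ka := card_seen h x1 x2 c0 a
  have kb := card_seen h x1 x2 c0 b
  have kc := card_seen h x1 x2 c0 c
  have kd := card_seen h x1 x2 c0 d
  obtain ⟨α, hα, sα⟩ := exists_col_notMem (D := D)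
    (seen G (XX G x1 x2) c0 a ∪ seen G (XX G x1 x2) c0 b) (by
      have := card_union_le (seen G (XX G x1 x2) c0 a) (seen G (XX G x1 x2) c0 b)
      omega)
  obtain ⟨β, hβ, sβ⟩ := exists_col_notMem (D := D)
    (insert α (seen G (XX G x1 x2) c0 c ∪ seen G (XX G x1 x2) c0 d)) (by
      have := card_union_le (seen G (XX G x1 x2) c0 c) (seen G (XX G x1 x2) c0 d)
      have := card_insert_le α (seen G (XX G x1 x2) c0 c ∪ seen G (XX G x1 x2) c0 d)
      omega)
  simp only [mem_insert, mem_union, not_or] at sα sβ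
  have p1 := putSet p0 {a, b} α (by
    intro u hu e he
    simp only [mem_insert, mem_singleton, not_or] at hu ⊢
    rcases hu with rfl | rfl
    · exact ⟨⟨he.ne', fun q => nab (q ▸ he)⟩, ne_of_notMem h0 hα sα.1 he⟩
    · exact ⟨⟨fun q => nab (q ▸ he).symm, he.ne'⟩, ne_of_notMem h0 hα sα.2 he⟩)
  have p2 := putSet p1 {c, d} β (by
    intro u hu e he
    simp only [mem_insert, mem_singleton, not_or] at hu ⊢
    rcases hu with rfl | rfl
    · refine ⟨⟨he.ne', fun q => ncd (q ▸ he)⟩, ?_⟩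
      split_ifs
      · exact fun q => sβ.1 q.symm
      · exact ne_of_notMem h0 hβ sβ.2.1 he
    · refine ⟨⟨fun q => ncd (q ▸ he).symm, he.ne'⟩, ?_⟩
      split_ifs
      · exact fun q => sβ.1 q.symm
      · exact ne_of_notMem h0 hβ sβ.2.2 he)
  have r : ∀ t, G.Adj t b → G.Adj t d → Red G D (fun v => if v ∈ ({c, d} : Finset V) then β else
      if v ∈ ({a, b} : Finset V) then α else c0 v) t {a, c} := by
    intro t e1 e2 y hy
    rcases mem_insert.1 hy with rfl | hy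
    · exact ⟨by simp [ac, ad, hα], b, e1, by simp [ab.symm, bc], by simp [ac, ad, bc, bd]⟩
    · rw [mem_singleton.1 hy]
      exact ⟨by simp [hβ], d, e2, by simp [ad.symm, cd.symm], by simp⟩
  refine core h hx p2 (fun v hv => ?_) ?_ ?_ ac a1 c1 a2 c2 (r x1 b1 d1) (r x2 b2 d2)
  · split_ifs at hv
    · exact absurd hβ hv
    · exact absurd hα hv
    · exact not_not.1 (mt (h0 v).2 hv)
  · simpa [a1.ne, b1.ne, c1.ne, d1.ne] using not_lt.1 fun q => (h0 x1).1 q m1
  · simpa [a2.ne, b2.ne, c2.ne, d2.ne] using not_lt.1 fun q => (h0 x2).1 q m2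

theorem e3 (h : MC G D) : E3st G D := by
  intro x1 x2 a b c hx a1 b1 c1 a2 b2 c2 ab ac bc nab nac nbc s
  have m1 : x1 ∈ XX G x1 x2 := mem_XX.2 ⟨Or.inl rfl, Or.inr hx.symm⟩
  have m2 : x2 ∈ XX G x1 x2 := mem_XX.2 ⟨Or.inr hx, Or.inl rfl⟩
  obtain ⟨c0, p0, h0⟩ := col_del h (XX G x1 x2) m1 hx.symm
  have ka := card_seen h x1 x2 c0 a
  have kb := card_seen h x1 x2 c0 b
  have kc := card_seen h x1 x2 c0 c
  obtain ⟨α, hα, sα⟩ := exists_col_notMem (D := D)
    (seen G (XX G x1 x2) c0 a ∪ seen G (XX G x1 x2) c0 b ∪ seen G (XX G x1 x2) c0 c) (by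
      have := card_union_le (seen G (XX G x1 x2) c0 a) (seen G (XX G x1 x2) c0 b)
      have := card_union_le (seen G (XX G x1 x2) c0 a ∪ seen G (XX G x1 x2) c0 b)
        (seen G (XX G x1 x2) c0 c)
      omega)
  simp only [mem_union, not_or] at sα
  have p1 := putSet p0 {a, b, c} α (by
    intro u hu e he
    simp only [mem_insert, mem_singleton, not_or] at hu ⊢
    rcases hu with rfl | rfl | rfl
    · exact ⟨⟨he.ne', fun q => nab (q ▸ he), fun q => nac (q ▸ he)⟩,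
        ne_of_notMem h0 hα sα.1.1 he⟩
    · exact ⟨⟨fun q => nab (q ▸ he).symm, he.ne', fun q => nbc (q ▸ he)⟩,
        ne_of_notMem h0 hα sα.1.2 he⟩
    · exact ⟨⟨fun q => nac (q ▸ he).symm, fun q => nbc (q ▸ he).symm, he.ne'⟩,
        ne_of_notMem h0 hα sα.2 he⟩)
  have r : ∀ t, G.Adj t c →
      Red G D (fun v => if v ∈ ({a, b, c} : Finset V) then α else c0 v) t {a, b} := by
    intro t e1 y hy
    rcases mem_insert.1 hy with rfl | hy
    · exact ⟨by simp [hα], c, e1, by simp [ac.symm, bc.symm], by simp⟩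
    · rw [mem_singleton.1 hy]
      exact ⟨by simp [hα], c, e1, by simp [ac.symm, bc.symm], by simp⟩
  refine core h hx p1 (fun v hv => ?_) ?_ ?_ ab a1 b1 a2 b2 (r x1 c1) (r x2 c2)
  · split_ifs at hv
    · exact absurd hα hv
    · exact not_not.1 (mt (h0 v).2 hv)
  · simpa [a1.ne, b1.ne, c1.ne] using not_lt.1 fun q => (h0 x1).1 q m1
  · simpa [a2.ne, b2.ne, c2.ne] using not_lt.1 fun q => (h0 x2).1 q m2

end Pool.Agent.Lib.MP_12eaff_co.Frz.BK
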