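import Mathlib
import Pool.Agent.Lib.MP_12eaff_co.Frz.BK.Defs

set_option autoImplicit false

namespace Pool.Agent.Lib.MP_12eaff_co.Frz.BK

open Finset
open scoped Classical

variable {V : Type} [Fintype V]

omit [Fintype V] in
/-- Distinct colours for a group whose members have at most two forbidden colours each. -/
theorem ext_hall (g : Finset V) (C : Finset ℕ) (A : V → Finset ℕ) (hC : g.card ≤ C.card)
    (hA : ∀ w ∈ g, (A w).card ≤ 2)
    (h1 : ∀ γ ∈ C, (g.filter fun w => γ ∈ A w).card + 1 ≤ g.card)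
    (h2 : ∀ γ ∈ C, ∀ ζ ∈ C, γ ≠ ζ → (g.filter fun w => γ ∈ A w ∧ ζ ∈ A w).card + 2 ≤ g.card) :
    ∃ f : V → ℕ, (∀ u ∈ g, ∀ v ∈ g, u ≠ v → f u ≠ f v) ∧ ∀ w ∈ g, f w ∈ C ∧ f w ∉ A w := by
  obtain ⟨f, f1, f2⟩ := (all_card_le_biUnion_card_iff_exists_injective
    (fun w : g => C \ A w)).1 (fun s => by
      rcases s.eq_empty_or_nonempty with rfl | ⟨w0, hw0⟩
      · simp
      have k : ∀ t : Finset V, (∀ w ∈ s, (w : V) ∈ t) → s.card ≤ t.card := fun t hp =>
        card_le_card_of_injOn (fun w => (w : V)) (fun w hw => hp w hw)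
          fun _ _ _ _ e => Subtype.ext e
      set B := C.filter fun γ => ∀ w ∈ s, γ ∈ A w with hB
      have e1 : (s.biUnion fun w : g => C \ A w) = C \ B := by
        ext γ
        simp only [hB, mem_biUnion, mem_sdiff, mem_filter, not_and, not_forall]
        exact ⟨fun ⟨w, a, b, d⟩ => ⟨b, fun _ => ⟨w, a, d⟩⟩,
          fun ⟨a, b⟩ => (b a).elim fun w d => d.elim fun x y => ⟨w, x, a, y⟩⟩
      have e0 : ∀ γ ∈ B, γ ∈ C ∧ ∀ w ∈ s, γ ∈ A w := fun γ hγ => mem_filter.1 hγ
      have e2 : B.card ≤ 2 :=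
        (card_le_card fun γ hγ => (e0 γ hγ).2 w0 hw0).trans (hA w0 w0.2)
      have e3 : (C \ B).card + B.card = C.card := card_sdiff_add_card_eq_card (filter_subset _ _)
      have e4 : s.card ≤ g.card := k g fun w _ => w.2
      have e5 : 0 < B.card → s.card + 1 ≤ g.card := fun h => by
        obtain ⟨γ, hγ⟩ := card_pos.1 h
        have a := e0 γ hγ
        exact le_trans (Nat.add_le_add_right
          (k _ fun w hw => mem_filter.2 ⟨w.2, a.2 w hw⟩) 1) (h1 γ a.1)
      have e6 : 1 < B.card → s.card + 2 ≤ g.card := fun h => by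
        obtain ⟨γ, hγ, ζ, hζ, h⟩ := one_lt_card.1 h
        have a := e0 γ hγ
        have b := e0 ζ hζ
        exact le_trans (Nat.add_le_add_right
          (k _ fun w hw => mem_filter.2 ⟨w.2, a.2 w hw, b.2 w hw⟩) 2) (h2 γ a.1 ζ b.1 h)
      convert (show s.card ≤ (C \ B).card by omega) using 2)
  refine ⟨fun v => if h : v ∈ g then f ⟨v, h⟩ else 0, fun u hu v hv h e => ?_, fun w hw => ?_⟩
  · simp only [dif_pos hu, dif_pos hv] at e
    exact h (congrArg Subtype.val (f1 e))
  · simp only [dif_pos hw]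
    exact mem_sdiff.1 (f2 ⟨w, hw⟩)

theorem ext (S : Sys V) : ExtSt S := by
  intro Kf hL hmem hsub heqv hcard hE hEP hK hgK hKeq hadj hKP c hc hcol
  have key : ∀ g : Finset V, ∃ f : V → ℕ, ∀ w ∈ S.P, S.gr w = g →
      (∀ u ∈ g, ∀ v ∈ g, u ≠ v → f u ≠ f v) ∧
      ∀ u ∈ g, f u ∈ range S.D \ (Kf w \ g).image c ∧ f u ∉ (S.E u).image c := by
    intro g
    by_cases h : ∃ w ∈ S.P, S.gr w = g
    · obtain ⟨w0, hw0, rfl⟩ := h
      have lt : ∀ γ ∈ range S.D \ (Kf w0 \ S.gr w0).image c, γ < S.D := fun γ hγ =>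
        mem_range.1 (mem_sdiff.1 hγ).1
      obtain ⟨f, f1, f2⟩ := ext_hall (S.gr w0) (range S.D \ (Kf w0 \ S.gr w0).image c)
        (fun u => (S.E u).image c) (by
          have a := le_card_sdiff ((Kf w0 \ S.gr w0).image c) (range S.D)
          have b : ((Kf w0 \ S.gr w0).image c).card ≤ (Kf w0 \ S.gr w0).card := card_image_le
          have d := card_sdiff_add_card_eq_card (hgK w0 hw0)
          rw [card_range] at a
          rw [hK w0 hw0] at d
          omega)
        (fun u hu => card_image_le.trans (hE u (hsub w0 hw0 hu)))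
        (fun γ hγ => by
          rw [hcard w0 hw0]
          refine le_trans (Nat.add_le_add_right (card_le_card fun u hu => ?_) 1)
            (hc.star w0 hw0 γ (lt γ hγ))
          exact mem_filter.2 ⟨(mem_filter.1 hu).1, mem_image.1 (mem_filter.1 hu).2⟩)
        (fun γ hγ ζ hζ hne => by
          rw [hcard w0 hw0]
          refine le_trans (Nat.add_le_add_right ((card_le_card fun u hu => ?_).trans
            (hc.cl w0 hw0 γ (lt γ hγ) ζ (lt ζ hζ))) 2) hL
          obtain ⟨a, b, d⟩ := mem_filter.1 hu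
          obtain ⟨x, x1, x2⟩ := mem_image.1 b
          obtain ⟨y, y1, y2⟩ := mem_image.1 d
          exact mem_filter.2 ⟨a, x, x1, y, y1, fun e => hne (x2 ▸ y2 ▸ congrArg c e), x2, y2⟩)
      refine ⟨f, fun w hw e => ⟨f1, ?_⟩⟩
      rw [hKeq w0 hw0 w (e ▸ hmem w hw)]
      exact f2
    · exact ⟨c, fun w hw e => absurd ⟨w, hw, e⟩ h⟩
  choose f hf using key
  have out : ∀ u ∈ S.P, ∀ v, v ∉ S.P → S.G.Adj u v → f (S.gr u) u ≠ c v := fun u hu v hv h e => by
    obtain ⟨a, b⟩ := (hf _ u hu rfl).2 u (hmem u hu)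
    rcases hadj u hu v h with d | d
    · exact (mem_sdiff.1 a).2 (mem_image.2
        ⟨v, mem_sdiff.2 ⟨d, fun x => hv (hsub u hu x)⟩, e.symm⟩)
    · exact b (mem_image.2 ⟨v, d, e.symm⟩)
  refine ⟨fun v => if v ∈ S.P then f (S.gr v) v else c v, fun v => ?_, fun u v h => ?_⟩
  · by_cases hv : v ∈ S.P
    · simp only [if_pos hv]
      exact mem_range.1 (mem_sdiff.1 ((hf _ v hv rfl).2 v (hmem v hv)).1).1
    · simp only [if_neg hv]
      exact hcol v hv
  · by_cases hu : u ∈ S.P <;> by_cases hv : v ∈ S.P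
    · simp only [if_pos hu, if_pos hv]
      have a : v ∈ S.gr u := hKP u hu v ((hadj u hu v h).resolve_right fun d => hEP u hu v d hv) hv
      rw [heqv u hu v a]
      exact (hf _ u hu rfl).1 u (hmem u hu) v a h.ne
    · simp only [if_pos hu, if_neg hv]
      exact out u hu v hv h
    · simp only [if_neg hu, if_pos hv]
      exact (out v hv u hu h.symm).symm
    · simp only [if_neg hu, if_neg hv]
      exact hc.prop u v h (hcol u hu)

end Pool.Agent.Lib.MP_12eaff_co.Frz.BK
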