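import Mathlib
import Pool.Agent.Lib.MP_12eaff_co.Frz.BK.Defs

set_option autoImplicit false

namespace Pool.Agent.Lib.MP_12eaff_co.Frz.BK

open Finset
open scoped Classical

namespace HaxAux

variable {ι W : Type} {H : W → W → Prop}

/-- Independent transversals of the parts indexed by `I`. -/
def IT (H : W → W → Prop) (I : Finset ι) (Pt : ι → Set W) (g : ι → W) : Prop :=
  (∀ i ∈ I, g i ∈ Pt i) ∧ ∀ i ∈ I, ∀ j ∈ I, i ≠ j → ¬ H (g i) (g j)

theorem IT.upd (hs : ∀ u v, H u v → H v u) {I : Finset ι} {Pt : ι → Set W} {g : ι → W} {x : W}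
    {j : ι} (h : IT H (I.erase j) Pt g) (hx : x ∈ Pt j) (hn : ∀ i ∈ I.erase j, ¬ H x (g i)) :
    IT H I Pt (Function.update g j x) := by
  refine ⟨fun i hi => ?_, fun i hi k hk e => ?_⟩
  · by_cases a : i = j
    · rwa [a, Function.update_self]
    · rw [Function.update_of_ne a]
      exact h.1 i (mem_erase.2 ⟨a, hi⟩)
  · by_cases a : i = j
    · subst a
      rw [Function.update_self, Function.update_of_ne e.symm]
      exact hn k (mem_erase.2 ⟨e.symm, hk⟩)
    · rw [Function.update_of_ne a]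
      by_cases b : k = j
      · rw [b, Function.update_self]
        exact fun c => hn i (mem_erase.2 ⟨a, hi⟩) (hs _ _ c)
      · rw [Function.update_of_ne b]
        exact h.2 i (mem_erase.2 ⟨a, hi⟩) k (mem_erase.2 ⟨b, hk⟩) e

/-- If no transversal extends to `A`, then `A` and some parts are dominated by few vertices. -/
theorem core (hs : ∀ u v, H u v → H v u) (I : Finset ι) : ∀ (A : Set W) (Pt : ι → Set W),
    (∃ g, IT H I Pt g) → (∀ g, IT H I Pt g → ∀ a ∈ A, ∃ i ∈ I, H a (g i)) →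
    ∃ S ⊆ I, ∃ Z : Finset W, Z.card ≤ 2 * S.card ∧
      ∀ x, (x ∈ A ∨ ∃ i ∈ S, x ∈ Pt i) → ∃ z ∈ Z, H z x := by
  induction I using Finset.strongInduction with
  | H I ih =>
  intro A Pt hex hno
  rcases A.eq_empty_or_nonempty with rfl | ⟨a, ha⟩
  · exact ⟨∅, empty_subset _, ∅, by simp, by simp⟩
  obtain ⟨T, hT, hmin⟩ := (measure fun g : ι → W => (I.filter fun i => H a (g i)).card).wf.has_min
    {g | IT H I Pt g} hex
  set J := I.filter fun i => H a (T i) with hJ
  have hJI : J ⊆ I := filter_subset _ _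
  have hne : J.Nonempty := let ⟨i, h1, h2⟩ := hno T hT a ha; ⟨i, mem_filter.2 ⟨h1, h2⟩⟩
  let B : Set W := {x | ¬ H a x ∧ ∀ j ∈ J, ¬ H (T j) x}
  obtain ⟨S, hS, Z, hZ, hd⟩ := ih (I \ J) (sdiff_ssubset hJI hne)
    ({x | x ∈ A ∨ ∃ j ∈ J, x ∈ Pt j} ∩ B) (fun i => Pt i ∩ B)
    ⟨T, fun i hi => ⟨hT.1 i (mem_sdiff.1 hi).1, fun c => (mem_sdiff.1 hi).2
      (mem_filter.2 ⟨(mem_sdiff.1 hi).1, c⟩), fun j hj => hT.2 j (hJI hj) i (mem_sdiff.1 hi).1
        fun e => (mem_sdiff.1 hi).2 (e ▸ hj)⟩,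
      fun i hi j hj => hT.2 i (mem_sdiff.1 hi).1 j (mem_sdiff.1 hj).1⟩ (by
    intro g hg x ⟨hx, hB⟩
    by_contra hc
    push Not at hc
    have k : IT H I Pt fun i => if i ∈ J then T i else g i := by
      refine ⟨fun i hi => ?_, fun i hi j hj e => ?_⟩
      · dsimp only
        split_ifs with b
        exacts [hT.1 i hi, (hg.1 i (mem_sdiff.2 ⟨hi, b⟩)).1]
      · dsimp only
        split_ifs with b c c
        exacts [hT.2 i hi j hj e, (hg.1 j (mem_sdiff.2 ⟨hj, c⟩)).2.2 i b,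
          fun f => (hg.1 i (mem_sdiff.2 ⟨hi, b⟩)).2.2 j c (hs _ _ f),
          hg.2 i (mem_sdiff.2 ⟨hi, b⟩) j (mem_sdiff.2 ⟨hj, c⟩) e]
    have k' : ∀ i ∈ I, ¬ H x (if i ∈ J then T i else g i) := fun i hi => by
      split_ifs with b
      exacts [fun f => hB.2 i b (hs _ _ f), hc i (mem_sdiff.2 ⟨hi, b⟩)]
    rcases hx with hx | ⟨j, hj, hx⟩
    · obtain ⟨i, h1, h2⟩ := hno _ k x hx
      exact k' i h1 h2
    · refine hmin _ (IT.upd hs (j := j) ⟨fun i hi => k.1 i (mem_of_mem_erase hi),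
        fun i hi l hl => k.2 i (mem_of_mem_erase hi) l (mem_of_mem_erase hl)⟩ hx
          fun i hi => k' i (mem_of_mem_erase hi)) ?_
      refine (card_le_card fun i hi => ?_).trans_lt (card_erase_lt_of_mem hj)
      obtain ⟨h1, h2⟩ := mem_filter.1 hi
      by_cases b : i = j
      · rw [b, Function.update_self] at h2
        exact absurd h2 hB.1
      · rw [Function.update_of_ne b] at h2
        refine mem_erase.2 ⟨b, by_contra fun c => ?_⟩
        rw [if_neg c] at h2
        exact (hg.1 i (mem_sdiff.2 ⟨h1, c⟩)).2.1 h2)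
  refine ⟨S ∪ J, union_subset (hS.trans sdiff_subset) hJI, Z ∪ insert a (J.image T), ?_,
    fun x hx => ?_⟩
  · rw [card_union_of_disjoint (disjoint_of_subset_left hS sdiff_disjoint)]
    have := card_union_le Z (insert a (J.image T))
    have := card_insert_le a (J.image T)
    have := card_image_le (s := J) (f := T)
    have := hne.card_pos
    omega
  · by_cases b : x ∈ B
    · obtain ⟨z, h1, h2⟩ := hd x (by
        rcases hx with hx | ⟨i, hi, hx⟩
        · exact .inl ⟨.inl hx, b⟩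
        · rcases mem_union.1 hi with hi | hi
          exacts [.inr ⟨i, hi, hx, b⟩, .inl ⟨.inr ⟨i, hi, hx⟩, b⟩])
      exact ⟨z, mem_union_left _ h1, h2⟩
    · by_contra hc
      push Not at hc
      exact b ⟨hc a (by simp), fun j hj => hc _
        (mem_union_right _ (mem_insert_of_mem (mem_image_of_mem _ hj)))⟩

end HaxAux

open HaxAux in
/-- Haxell's theorem on independent transversals, for a nonempty type of vertices. -/
theorem hax_ne : ∀ (ι W : Type) (I : Finset ι) (Pt : ι → Finset W) (H : W → W → Prop) (d : ℕ),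
    Nonempty W → (∀ u v, H u v → H v u) →
    (∀ v, ∃ N : Finset W, N.card ≤ d ∧ ∀ u, H v u → u ∈ N) →
    (∀ i ∈ I, ∀ j ∈ I, i ≠ j → Disjoint (Pt i) (Pt j)) → 1 ≤ d →
    (∀ i ∈ I, 2 * d ≤ (Pt i).card) →
    ∃ g : ι → W, (∀ i ∈ I, g i ∈ Pt i) ∧ ∀ i ∈ I, ∀ j ∈ I, i ≠ j → ¬ H (g i) (g j) := by
  intro ι W I Pt H d hW hs hN hd h1 h2
  choose N hN1 hN2 using hN
  induction I using Finset.induction_on with
  | empty => exact ⟨fun _ => hW.some, by simp, by simp⟩
  | insert j I hj ih =>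
    by_contra hc
    obtain ⟨S, hS, Z, hZ, hdom⟩ := core hs I (Pt j) (fun i => Pt i)
      (ih (fun i hi k hk => hd i (mem_insert_of_mem hi) k (mem_insert_of_mem hk))
        fun i hi => h2 i (mem_insert_of_mem hi)) fun g hg a ha => by
      by_contra hn
      push Not at hn
      exact hc ⟨_, IT.upd hs (Pt := fun i => Pt i) (j := j) (by rwa [erase_insert hj]) ha
        (by rwa [erase_insert hj])⟩
    have s : insert j S ⊆ insert j I := insert_subset_insert _ hS
    have a1 : ((insert j S).biUnion Pt).card ≤ (Z.biUnion N).card := card_le_card fun x hx => by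
      obtain ⟨i, hi, hy⟩ := mem_biUnion.1 hx
      obtain ⟨z, h3, h4⟩ := hdom x (by
        rcases mem_insert.1 hi with rfl | hi
        exacts [.inl hy, .inr ⟨i, hi, hy⟩])
      exact mem_biUnion.2 ⟨z, h3, hN2 z x h4⟩
    have a2 := card_biUnion_le_card_mul Z N d fun z _ => hN1 z
    have a3 := card_nsmul_le_sum (insert j S) (fun i => (Pt i).card) (2 * d) fun i hi => h2 i (s hi)
    rw [card_biUnion fun i hi k hk => hd i (s hi) k (s hk)] at a1
    rw [card_insert_of_notMem fun c => hj (hS c), smul_eq_mul] at a3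
    nlinarith [Nat.mul_le_mul_right d hZ]

end Pool.Agent.Lib.MP_12eaff_co.Frz.BK
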